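import Mathlib
import Pool.Agent.H.MP_f87a07_co.C

set_option autoImplicit false

namespace Pool.Agent.H.MP_5b8c2d_co

open Relation Pool.Agent.H.MP_f87a07_co

/-- one move of the Chinese rings -/
def Gr (n : ℕ) (d d' : ℕ → Bool) : Prop :=
  ∃ h < n, d' = Function.update d h (!d h) ∧ (∀ i, i + 2 ≤ h → d i = false) ∧
    ∀ i, i + 1 = h → d i = true

theorem Gr.symm {n : ℕ} {d d' : ℕ → Bool} (h : Gr n d d') : Gr n d' d := by
  obtain ⟨h, hn, rfl, h2, h3⟩ := h
  exact ⟨h, hn, by simp, fun i hi => by rw [Function.update_of_ne (by omega), h2 i hi],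
    fun i hi => by rw [Function.update_of_ne (by omega), h3 i hi]⟩

/-- position in the Gray code -/
def gp (d : ℕ → Bool) : ℕ → ℤ
  | 0 => 0
  | i + 1 => if d i = true then 2 ^ (i + 1) - 1 - gp d i else gp d i

theorem gp_congr {d d' : ℕ → Bool} (i : ℕ) (h : ∀ k < i, d k = d' k) : gp d i = gp d' i := by
  induction i with
  | zero => rfl
  | succ i ih => simp only [gp]; rw [h i (by omega), ih fun k hk => h k (by omega)]

theorem gp_zero {d : ℕ → Bool} (i : ℕ) (h : ∀ k < i, d k = false) : gp d i = 0 := by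
  induction i with
  | zero => rfl
  | succ i ih => simp [gp, h i (by omega), ih fun k hk => h k (by omega)]

theorem gp_top {d : ℕ → Bool} (i : ℕ) (h : ∀ k, k + 2 ≤ i → d k = false)
    (h' : ∀ k, k + 1 = i → d k = true) : gp d i = 2 ^ i - 1 := by
  rcases i with _ | i
  · rfl
  · simp [gp, h' i rfl, gp_zero i fun k hk => h k (by omega)]

theorem gp_step {n : ℕ} {d d' : ℕ → Bool} (h : Gr n d d') : |gp d' n - gp d n| = 1 := by
  obtain ⟨h, hn, rfl, h2, h3⟩ := h
  induction n with
  | zero => omega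
  | succ i ih =>
    simp only [gp]
    rcases Nat.lt_succ_iff_lt_or_eq.1 hn with hi | rfl
    · rw [Function.update_of_ne (by omega), ← ih hi]
      split_ifs
      · rw [← abs_neg]; congr 1; ring
      · rfl
    · rw [Function.update_self, gp_congr h (d' := d)
        fun k hk => Function.update_of_ne (by omega) _ _, gp_top h h2 h3]
      cases d h <;> simp <;> ring_nf <;> simp

theorem gr_reach {n : ℕ} (i : ℕ) : i < n → ∀ d : ℕ → Bool, (∀ k < i, d k = false) →
    ReflTransGen (Gr n) d (Function.update d i (!d i)) := by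
  induction i with
  | zero => exact fun hi d _ => .single ⟨0, hi, rfl, fun k hk => by omega, fun k hk => by omega⟩
  | succ i ih =>
    intro hi d hd
    have a := ih (by omega) d fun k hk => hd k (by omega)
    have b := ih (by omega) (Function.update d (i + 1) (!d (i + 1)))
      fun k hk => by rw [Function.update_of_ne (by omega), hd k (by omega)]
    refine (a.tail ⟨i + 1, hi, ?_, fun k hk => ?_, fun k hk => ?_⟩).trans
      (rtg_symm (fun _ _ => Gr.symm) b)
    · rw [Function.update_of_ne (by omega : i ≠ i + 1), Function.update_of_ne (by omega : i + 1 ≠ i),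
        Function.update_comm (by omega : i + 1 ≠ i)]
    · rw [Function.update_of_ne (by omega), hd k (by omega)]
    · obtain rfl : k = i := by omega
      rw [Function.update_self, hd k (by omega)]; rfl

theorem gr_far (n : ℕ) : Far (Gr (n + 1)) (fun _ => false)
    (Function.update (fun _ => false) n true) (2 ^ (n + 1) - 1) := by
  refine ⟨gr_reach n (by omega) _ fun _ _ => rfl, fun k hk => ?_⟩
  have key : ∀ k d, Within (Gr (n + 1)) (fun _ => false) k d → gp d (n + 1) ≤ k := by
    intro k d h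
    induction h with
    | refl => rw [gp_zero _ fun _ _ => rfl]; simp
    | stay _ ih => push_cast; omega
    | step _ hs ih =>
      have := (abs_le.1 (gp_step hs).le).2
      push_cast; omega
  have a := key k _ hk
  rw [gp_top _ (fun k hk => by rw [Function.update_of_ne (by omega)])
    (fun k hk => by rw [show k = n by omega, Function.update_self])] at a
  have : ((2 ^ (n + 1) : ℕ) : ℤ) = 2 ^ (n + 1) := by simp
  omega

theorem tree_of_par {V : Type} [Finite V] (G : SimpleGraph V) (root : V) (par : V → V)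
    (dep : V → ℕ) (h1 : ∀ v, v ≠ root → G.Adj v (par v) ∧ dep (par v) < dep v)
    (h2 : ∀ v w, G.Adj v w → (v ≠ root ∧ w = par v) ∨ (w ≠ root ∧ v = par w)) : G.IsTree := by
  classical
  have hr : ∀ k v, dep v = k → G.Reachable v root := by
    intro k
    induction k using Nat.strong_induction_on with
    | _ k ih =>
      intro v hv
      by_cases h : v = root
      · rw [h]
      · exact (h1 v h).1.reachable.trans (ih _ (hv ▸ (h1 v h).2) _ rfl)
  have : Nonempty V := ⟨root⟩
  have hc : G.Connected := ⟨fun v w => (hr _ v rfl).trans (hr _ w rfl).symm⟩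
  refine SimpleGraph.isTree_iff_connected_and_card.2 ⟨hc,
    le_antisymm ?_ hc.card_vert_le_card_edgeSet_add_one⟩
  have hs : Function.Surjective
      (fun v : {v // v ≠ root} => (⟨s(v.1, par v.1), (h1 v.1 v.2).1⟩ : G.edgeSet)) := by
    rintro ⟨e, he⟩
    induction e using Sym2.ind with
    | _ v w =>
      rcases h2 v w he with ⟨h, rfl⟩ | ⟨h, rfl⟩
      · exact ⟨⟨v, h⟩, rfl⟩
      · exact ⟨⟨w, h⟩, Subtype.ext Sym2.eq_swap⟩
  have h4 : Nat.card G.edgeSet ≤ _ := Nat.card_le_card_of_surjective _ hs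
  have := Fintype.ofFinite V
  have h3 : Nat.card {v // v ≠ root} = Nat.card V - 1 := by
    simp [Nat.card_eq_fintype_card, Fintype.card_subtype_compl]
  have : 0 < Nat.card V := Nat.card_pos
  omega

theorem tree_hard {P T : Type} [Fintype P] [DecidableEq P] (X : P → P → Prop) (Fr : T → T → Prop)
    {c0 c1 : P → T} {N : ℕ} (h : Far (TL X Fr) c0 c1 N)
    (ht : (SimpleGraph.fromRel fun p q => Fr (c0 p) (c0 q)).IsTree) {n : ℕ} (e : Fin n ≃ P) :
    ∃ (Tr Y : SimpleGraph (Fin n)) (σ τ : Equiv.Perm (Fin n)), Tr.IsTree ∧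
      (FS Tr Y).Reachable σ τ ∧ N ≤ (FS Tr Y).dist σ τ := by
  let X' : SimpleGraph (Fin n) := SimpleGraph.fromRel fun a b => X (e a) (e b)
  let Y' : SimpleGraph (Fin n) := SimpleGraph.fromRel fun a b => Fr (c0 (e a)) (c0 (e b))
  let Rep : Equiv.Perm (Fin n) → (P → T) → Prop :=
    fun σ c => c = fun p => c0 (e (σ⁻¹ (e.symm p)))
  have hsw : ∀ (σ : Equiv.Perm (Fin n)) (a b : Fin n),
      (fun p => c0 (e ((σ * Equiv.swap a b)⁻¹ (e.symm p))))
        = (fun p => c0 (e (σ⁻¹ (e.symm p)))) ∘ Equiv.swap (e (σ a)) (e (σ b)) := by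
    intro σ a b
    funext p
    simp only [mul_inv_rev, Equiv.swap_inv, Equiv.Perm.mul_apply, Function.comp_apply]
    rw [e.symm.injective.map_swap, σ⁻¹.injective.map_swap]
    simp
  have key : ∀ σ τ : Equiv.Perm (Fin n),
      (∃ a b, Y'.Adj a b ∧ X'.Adj (σ a) (σ b) ∧ τ = σ * Equiv.swap a b) →
      TL X Fr (fun p => c0 (e (σ⁻¹ (e.symm p)))) (fun p => c0 (e (τ⁻¹ (e.symm p)))) := by
    rintro σ τ ⟨a, b, hY, hX, rfl⟩
    rw [SimpleGraph.fromRel_adj] at hX hY
    rcases hX.2 with h | h
    · exact ⟨_, _, h, by simpa using hY.2, hsw σ a b⟩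
    · exact ⟨_, _, h, by simpa using hY.2.symm, by rw [hsw, Equiv.swap_comm]⟩
  obtain ⟨τ, -, hr, hk⟩ := h.sim (RL := (FS Y' X').Adj) Rep Rep 1 (by simp only [Rep, inv_one]; simp)
    (fun _ _ h => h) (fun _ _ _ h h' => h'.trans h.symm)
    (fun σ c τ hc hs => by
      refine ⟨_, rfl, Or.inr ?_⟩
      rw [hc]
      rcases ((SimpleGraph.fromRel_adj _ _ _).1 hs).2 with h | ⟨a, b, hX, hY, rfl⟩
      · exact key _ _ h
      · refine key _ _ ⟨a, b, hX, ?_, by simp [mul_assoc]⟩
        simpa using hY.symm)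
    (fun σ c c' hc hs => by
      obtain ⟨a, b, hX, hF, rfl⟩ := hs
      by_cases hab : a = b
      · subst hab
        exact ⟨σ, by simpa using hc, .refl⟩
      refine ⟨σ * Equiv.swap (σ⁻¹ (e.symm a)) (σ⁻¹ (e.symm b)), ?_, .single ?_⟩
      · simp only [Rep]
        rw [hsw, hc]; simp
      · have hab' : σ⁻¹ (e.symm a) ≠ σ⁻¹ (e.symm b) :=
          fun h => hab (e.symm.injective (σ⁻¹.injective h))
        refine (SimpleGraph.fromRel_adj _ _ _).2 ⟨?_, Or.inl ⟨_, _, ?_, ?_, rfl⟩⟩
        · intro h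
          have := congrArg (fun s : Equiv.Perm _ => s (σ⁻¹ (e.symm a))) h
          simp only [Equiv.Perm.mul_apply, Equiv.swap_apply_left] at this
          exact hab' (σ.injective this)
        · refine (SimpleGraph.fromRel_adj _ _ _).2 ⟨hab', ?_⟩
          rw [hc] at hF
          exact hF
        · exact (SimpleGraph.fromRel_adj _ _ _).2 ⟨fun h => hab' (σ.injective h),
            Or.inl (by simpa using hX)⟩)
  have hreach : (FS Y' X').Reachable τ 1 :=
    ((SimpleGraph.reachable_iff_reflTransGen _ _).2 hr).symm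
  obtain ⟨w, hw⟩ := hreach.exists_walk_length_eq_dist
  refine ⟨Y', X', τ, 1, ?_, hreach, hw ▸ hk _ (walk_within w)⟩
  refine (SimpleGraph.Iso.isTree_iff (G' := SimpleGraph.fromRel fun p q => Fr (c0 p) (c0 q))
    ⟨e, ?_⟩).2 ht
  intro a b
  simp [Y', SimpleGraph.fromRel_adj]

end Pool.Agent.H.MP_5b8c2d_co
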