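import Mathlib
import Pool.Agent.H.MP_5b8c2d_co.A

set_option autoImplicit false

namespace Pool.Agent.H.MP_5b8c2d_co

open Relation Pool.Agent.H.MP_f87a07_co

/-- contents of the eight cells of a level -/
def cont : Fin 30 → Fin 8 → Fin 4 :=
  ![![1,1,2,1,3,1,3,1], ![1,1,3,1,3,1,2,1], ![1,1,1,2,3,1,3,1], ![0,1,2,1,3,1,3,1],
    ![1,1,2,0,3,1,3,1], ![1,1,2,1,3,0,3,1], ![1,0,2,1,3,1,3,1], ![1,1,2,1,3,1,3,0],
    ![0,1,3,1,3,1,2,1], ![1,1,3,0,3,1,2,1], ![1,1,3,1,3,0,2,1], ![1,0,3,1,3,1,2,1],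
    ![1,1,3,1,3,1,2,0], ![1,1,0,2,3,1,3,1], ![1,2,3,1,3,1,0,1], ![1,1,3,1,2,1,1,3],
    ![1,1,3,1,3,1,1,2], ![1,1,3,1,1,2,1,3], ![0,1,3,1,2,1,1,3], ![1,1,3,1,2,0,1,3],
    ![1,1,3,0,2,1,1,3], ![1,0,3,1,2,1,1,3], ![1,1,3,1,2,1,0,3], ![0,1,3,1,3,1,1,2],
    ![1,1,3,1,3,0,1,2], ![1,1,3,0,3,1,1,2], ![1,0,3,1,3,1,1,2], ![1,1,3,1,3,1,0,2],
    ![1,1,3,1,0,2,1,3], ![1,2,3,1,3,1,1,0]]

/-- free, parked or active -/
def kind : Fin 30 → Fin 3 := ![0,0,1,2,2,2,2,2,2,2,2,2,2,2,2,0,0,1,2,2,2,2,2,2,2,2,2,2,2,2]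

/-- the side of the hole -/
def side (s : Fin 30) : Bool :=
  (![0,0,0,0,0,0,1,1,0,0,0,1,1,0,1,0,0,0,0,0,0,1,1,0,0,0,1,1,0,1] : Fin 30 → Fin 2) s = 1

/-- the stored bit -/
def bit (s : Fin 30) : Bool := 15 ≤ s

/-- edges inside a level -/
def LE (z : Bool) (c c' : Fin 8) : Bool :=
  (c, c') ∈ [(2, 3), (3, 0), (4, 5), (5, 0), (2, 6), (4, 7), (1, 6), (1, 7), (6, 7)] ||
    (z && (c, c') = (0, 1))

/-- friendly local types -/
def lf (t t' : Fin 4) : Bool := (t, t') ∈ [(0, 1), (0, 2), (2, 3)]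

/-- exit cells -/
def cx (sd : Bool) : Fin 8 := if sd then 4 else 2

/-- entry cells -/
def ca (sd : Bool) : Fin 8 := if sd then 1 else 0

/-- local steps -/
def ls (z : Bool) (s s' : Fin 30) : Prop :=
  ∃ c c', LE z c c' = true ∧ (lf (cont s c) (cont s c') = true ∨ lf (cont s c') (cont s c) = true) ∧
    cont s' = cont s ∘ Equiv.swap c c'

theorem L0 : ∀ s s', cont s = cont s' → s = s' := by decide +kernel

theorem L1 : ∀ s z c c', LE z c c' = true →
    (lf (cont s c) (cont s c') = true ∨ lf (cont s c') (cont s c) = true) →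
    ∃ s', cont s' = cont s ∘ Equiv.swap c c' ∧ kind s' = kind s ∧
      (bit s' = bit s ∨ (kind s = 2 ∧ side s = true ∧ bit s' = !bit s)) ∧
      (side s' = side s ∨ z = true) := by decide +kernel

theorem L2a : ∀ s sd, cont s (cx sd) = 0 → kind s = 2 ∧ bit s = sd ∧ side s = false ∧
    ∃ s', kind s' = 1 ∧ bit s' = bit s ∧ cont s' = Function.update (cont s) (cx sd) 1 := by
  decide +kernel

theorem L2b : ∀ s sd, kind s = 0 → cont s (ca sd) = 1 ∧ ∃ s', kind s' = 2 ∧ bit s' = bit s ∧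
    side s' = sd ∧ cont s' = Function.update (cont s) (ca sd) 0 := by decide +kernel

theorem L2c : ∀ s sd, kind s = 1 → lf 0 (cont s (cx sd)) = true → cont s (cx sd) = 1 ∧
    ∃ s', kind s' = 2 ∧ bit s' = bit s ∧ side s' = false ∧
      cont s' = Function.update (cont s) (cx sd) 0 := by decide +kernel

theorem L2d : ∀ s sd, cont s (ca sd) = 0 → kind s = 2 ∧ ∃ s', kind s' = 0 ∧ bit s' = bit s ∧
    cont s' = Function.update (cont s) (ca sd) 1 := by decide +kernel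

/-- global types -/
def ty (k : ℕ) (t : Fin 4) : Fin 4 × ℕ := (t, if t < 2 then 0 else k)

/-- friendly global types -/
def Fr (t t' : Fin 4 × ℕ) : Prop := lf t.1 t'.1 = true ∧ (t.1 = 2 → t.2 = t'.2)

/-- the graph of positions -/
def XX (n : ℕ) (p q : Fin n × Fin 8) : Prop :=
  (p.1 = q.1 ∧ LE ((p.1 : ℕ) = 0) p.2 q.2 = true) ∨
    ((p.1 : ℕ) + 1 = q.1 ∧ ∃ sd, p.2 = cx sd ∧ q.2 = ca sd)

/-- configurations -/
def conf (n : ℕ) (S : ℕ → Fin 30) (p : Fin n × Fin 8) : Fin 4 × ℕ := ty p.1 (cont (S p.1) p.2)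

variable {n : ℕ}

theorem Fr_loc (k : ℕ) : ∀ t t', Fr (ty k t) (ty k t') ↔ lf t t' = true := by
  intro t t'
  refine ⟨fun h => h.1, fun h => ⟨h, fun h2 => ?_⟩⟩
  obtain rfl : t = 2 := h2
  obtain rfl : t' = 3 := by revert h t'; decide
  rfl

theorem Fr_cross {k k' : ℕ} (hk : k ≠ k') {t t' : Fin 4} (h : Fr (ty k t) (ty k' t')) :
    t = 0 ∧ lf 0 t' = true := by
  have h1 : lf t t' = true := h.1
  have : t = 0 ∨ (t = 2 ∧ t' = 3) := by clear h; revert h1; revert t t'; decide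
  rcases this with rfl | ⟨rfl, rfl⟩
  · exact ⟨rfl, h1⟩
  · exact (hk (h.2 rfl)).elim

theorem conf_loc (S : ℕ → Fin 30) (k : Fin n) (c c' : Fin 8) {s : Fin 30}
    (h : cont s = cont (S k) ∘ Equiv.swap c c') :
    conf n S ∘ Equiv.swap (k, c) (k, c') = conf n (Function.update S k s) := by
  funext ⟨j, x⟩
  by_cases hj : j = k
  · subst hj
    have : Equiv.swap (j, c) (j, c') (j, x) = (j, Equiv.swap c c' x) :=
      ((Prod.mk_right_injective j).map_swap c c' x).symm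
    rw [Function.comp_apply, this]
    simp [conf, h]
  · rw [Function.comp_apply, Equiv.swap_apply_of_ne_of_ne (by simp [hj]) (by simp [hj])]
    simp only [conf]
    rw [Function.update_of_ne (fun h => hj (Fin.ext h))]

theorem conf_cross (S : ℕ → Fin 30) {k k' : Fin n} (hk : (k : ℕ) ≠ k') (c c' : Fin 8)
    {s s' : Fin 30} (h1 : cont (S k) c < 2) (h2 : cont (S k') c' < 2)
    (h : cont s = Function.update (cont (S k)) c (cont (S k') c'))
    (h' : cont s' = Function.update (cont (S k')) c' (cont (S k) c)) :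
    conf n S ∘ Equiv.swap (k, c) (k', c')
      = conf n (Function.update (Function.update S k s) k' s') := by
  funext ⟨j, x⟩
  rw [Function.comp_apply, Equiv.swap_apply_def]
  simp only [Prod.mk.injEq]
  split_ifs with a b
  · obtain ⟨rfl, rfl⟩ := a
    simp [conf, ty, h, h2, hk]
  · obtain ⟨rfl, rfl⟩ := b
    simp [conf, ty, h', h1]
  · simp only [conf]
    by_cases e' : j = k'
    · subst e'
      rw [Function.update_self, h', Function.update_of_ne (fun e => b ⟨rfl, e⟩)]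
    rw [Function.update_of_ne (fun h => e' (Fin.ext h))]
    by_cases e : j = k
    · subst e
      rw [Function.update_self, h, Function.update_of_ne (fun e => a ⟨rfl, e⟩)]
    · rw [Function.update_of_ne (fun h => e (Fin.ext h))]

end Pool.Agent.H.MP_5b8c2d_co
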