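import Mathlib
import Pool.Agent.H.MP_5b8c2d_co.B

set_option autoImplicit false

namespace Pool.Agent.H.MP_5b8c2d_co

open Relation Pool.Agent.H.MP_f87a07_co

/-- representation -/
def Rep (n : ℕ) (c : Fin n × Fin 8 → Fin 4 × ℕ) (d : ℕ → Bool) : Prop :=
  ∃ h < n, ∃ S : ℕ → Fin 30, c = conf n S ∧ (∀ k < n, bit (S k) = d k) ∧
    (∀ k, n ≤ k → d k = false) ∧ (∀ k, h < k → kind (S k) = 0) ∧ (∀ k < h, kind (S k) = 1) ∧
    kind (S h) = 2 ∧ (∀ k, k + 2 ≤ h → d k = false) ∧ ∀ k, k + 1 = h → d k = side (S h)

/-- canonical states -/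
def St (h : ℕ) (sd : Bool) (d : ℕ → Bool) (k : ℕ) : Fin 30 :=
  if k < h then (if d k then 17 else 2)
  else if k = h then (if d k then (if sd then 21 else 18) else (if sd then 6 else 3))
  else if d k then 15 else 0

/-- good representation -/
def Good (n : ℕ) (c : Fin n × Fin 8 → Fin 4 × ℕ) (d : ℕ → Bool) : Prop :=
  c = conf n (St 0 false d) ∧ ∀ k, n ≤ k → d k = false

variable {n : ℕ}

theorem good_rep (hn : 0 < n) (c : Fin n × Fin 8 → Fin 4 × ℕ) (d : ℕ → Bool) (h : Good n c d) :
    Rep n c d := by
  refine ⟨0, hn, _, h.1, fun k _ => ?_, h.2, fun k hk => ?_, fun k hk => by omega, ?_,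
    fun k hk => by omega, fun k hk => by omega⟩
  · unfold St; cases d k <;> split_ifs <;> first | rfl | omega | contradiction
  · unfold St; rw [if_neg (by omega), if_neg (by omega)]; split_ifs <;> rfl
  · unfold St; cases d 0 <;> rfl

theorem rep_uniq (c : Fin n × Fin 8 → Fin 4 × ℕ) (d d' : ℕ → Bool) (h : Rep n c d)
    (h' : Rep n c d') : d' = d := by
  obtain ⟨-, -, S, rfl, h1, h2, -⟩ := h
  obtain ⟨-, -, S', e, h1', h2', -⟩ := h'
  funext k
  rcases Nat.lt_or_ge k n with a | a
  · rw [← h1 k a, ← h1' k a, L0 (S k) (S' k)]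
    funext x
    exact congrArg Prod.fst (congrFun e (⟨k, a⟩, x))
  · rw [h2 k a, h2' k a]

theorem T_sim (c : Fin n × Fin 8 → Fin 4 × ℕ) (d : ℕ → Bool) (c' : Fin n × Fin 8 → Fin 4 × ℕ)
    (hR : Rep n c d) (hs : TL (XX n) Fr c c') : ∃ d', Rep n c' d' ∧ (d' = d ∨ Gr n d d') := by
  obtain ⟨h, hn, S, rfl, h1, h2, h3, h4, h5, h6, h7⟩ := hR
  obtain ⟨⟨k, x⟩, ⟨k', x'⟩, ⟨e, hE⟩ | ⟨e, sd, e1, e2⟩, hF, rfl⟩ := hs
  · obtain rfl : k = k' := e
    simp only [conf, Fr_loc] at hF
    obtain ⟨s, hs, a1, a2, a3⟩ := L1 (S k) _ x x' hE hF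
    have hk : ∀ j, kind (Function.update S k s j) = kind (S j) := fun j => by
      rw [Function.update_apply]; split_ifs with e
      · rw [a1, e]
      · rfl
    have hsd : ∀ j, j + 1 = h → side (Function.update S k s h) = side (S h) := fun j hj => by
      rw [Function.update_apply]; split_ifs with e
      · rcases a3 with a | a
        · rw [a, e]
        · simp at a; omega
      · rfl
    rw [conf_loc S k x x' hs]
    rcases a2 with a | ⟨a, a', a''⟩
    · refine ⟨d, ⟨h, hn, _, rfl, fun j hj => ?_, h2, fun j hj => by rw [hk, h3 j hj],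
        fun j hj => by rw [hk, h4 j hj], by rw [hk, h5], h6,
        fun j hj => by rw [hsd j hj, h7 j hj]⟩, Or.inl rfl⟩
      rw [Function.update_apply, ← h1 j hj]; split_ifs with e
      · rw [a, e]
      · rfl
    · obtain rfl : h = k := by
        rcases lt_trichotomy h k with b | b | b
        · rw [h3 k b] at a; cases a
        · exact b
        · rw [h4 k b] at a; cases a
      refine ⟨Function.update d k (!d k), ⟨k, hn, _, rfl, fun j hj => ?_,
        fun j hj => by rw [Function.update_of_ne (by omega), h2 j hj],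
        fun j hj => by rw [hk, h3 j hj], fun j hj => by rw [hk, h4 j hj], by rw [hk, h5],
        fun j hj => by rw [Function.update_of_ne (by omega), h6 j hj],
        fun j hj => by rw [hsd j hj, Function.update_of_ne (by omega), h7 j hj]⟩,
        Or.inr ⟨k, hn, rfl, h6, fun j hj => by rw [h7 j hj, a']⟩⟩
      rw [Function.update_apply, Function.update_apply, ← h1 j hj, ← h1 k hn]
      split_ifs
      · exact a''
      · rfl
  · simp only at e e1 e2
    subst e1 e2
    have hne : (k : ℕ) ≠ k' := by omega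
    refine ⟨d, ?_, Or.inl rfl⟩
    rcases hF with hF | hF
    · obtain ⟨b1, -⟩ := Fr_cross hne hF
      simp only at b1
      obtain ⟨a1, a2, a3, s, a4, a5, a6⟩ := L2a _ _ b1
      obtain rfl : h = k := by
        rcases lt_trichotomy h k with b | b | b
        · rw [h3 k b] at a1; cases a1
        · exact b
        · rw [h4 k b] at a1; cases a1
      obtain ⟨b2, s', b3, b4, b5, b6⟩ := L2b _ sd (h3 k' (by omega))
      rw [conf_cross S hne _ _ (s := s) (s' := s') (by rw [b1]; decide) (by rw [b2]; decide)
        (by rw [b2, a6]) (by rw [b1, b6])]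
      refine ⟨k', k'.2, _, rfl, fun j hj => ?_, h2, fun j hj => ?_, fun j hj => ?_, ?_,
        fun j hj => ?_, fun j hj => ?_⟩
      · rw [← h1 j hj, Function.update_apply, Function.update_apply]
        split_ifs with c1 c2
        · rw [b4, c1]
        · rw [a5, c2]
        · rfl
      · rw [Function.update_of_ne (by omega), Function.update_of_ne (by omega), h3 j (by omega)]
      · rw [Function.update_of_ne (by omega), Function.update_apply]
        split_ifs
        · exact a4
        · exact h4 j (by omega)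
      · rw [Function.update_self, b3]
      · rcases Nat.lt_or_ge (j + 1) k with c | c
        · exact h6 j c
        · rw [h7 j (by omega), a3]
      · rw [Function.update_self, b5, ← a2, show j = k by omega, h1 k hn]
    · obtain ⟨b1, b2⟩ := Fr_cross hne.symm hF
      simp only at b1 b2
      obtain ⟨a1, s', a4, a5, a6⟩ := L2d _ _ b1
      obtain rfl : h = k' := by
        rcases lt_trichotomy h k' with b | b | b
        · rw [h3 k' b] at a1; cases a1
        · exact b
        · rw [h4 k' b] at a1; cases a1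
      obtain ⟨b2, s, b3, b4, b5, b6⟩ := L2c _ sd (h4 k (by omega)) b2
      rw [conf_cross S hne _ _ (s := s) (s' := s') (by rw [b2]; decide) (by rw [b1]; decide)
        (by rw [b1, b6]) (by rw [b2, a6])]
      refine ⟨k, k.2, _, rfl, fun j hj => ?_, h2, fun j hj => ?_, fun j hj => ?_, ?_,
        fun j hj => h6 j (by omega), fun j hj => ?_⟩
      · rw [← h1 j hj, Function.update_apply, Function.update_apply]
        split_ifs with c1 c2
        · rw [a5, c1]
        · rw [b4, c2]
        · rfl
      · rw [Function.update_apply]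
        split_ifs
        · exact a4
        · rw [Function.update_of_ne (by omega), h3 j (by omega)]
      · rw [Function.update_of_ne (by omega), Function.update_of_ne (by omega), h4 j (by omega)]
      · rw [Function.update_of_ne hne, Function.update_self, b3]
      · rw [Function.update_of_ne hne, Function.update_self, b5, h6 j (by omega)]

theorem lift_loc {k : ℕ} (hk : k < n) (S : ℕ → Fin 30) {s : Fin 30}
    (h : ReflTransGen (ls (k = 0)) (S k) s) :
    ReflTransGen (TL (XX n) Fr) (conf n S) (conf n (Function.update S k s)) := by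
  induction h with
  | refl => rw [Function.update_eq_self]
  | @tail s s' _ hs ih =>
    obtain ⟨x, x', hE, hF, e⟩ := hs
    refine ih.tail ⟨(⟨k, hk⟩, x), (⟨k, hk⟩, x'), Or.inl ⟨rfl, hE⟩, ?_, ?_⟩
    · simpa only [conf, Fr_loc, Function.update_self] using hF
    · rw [conf_loc _ ⟨k, hk⟩ x x' (s := s') (by simpa using e), Function.update_idem]

theorem ls_dec (z : Bool) (s s' : Fin 30) (c c' : Fin 8) (h : LE false c c' = true ∧
    (lf (cont s c) (cont s c') = true ∨ lf (cont s c') (cont s c) = true) ∧
    cont s' = cont s ∘ Equiv.swap c c') : ls z s s' :=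
  ⟨c, c', by have := h.1; clear h; revert this c c' z; decide, h.2⟩

theorem up {h : ℕ} (hn : h + 1 < n) (d : ℕ → Bool) :
    ReflTransGen (TL (XX n) Fr) (conf n (St h false d)) (conf n (St (h + 1) (d h) d)) := by
  have a : ReflTransGen (ls (h = 0)) (St h false d h) (if d h then 28 else 13) := by
    unfold St
    rw [if_neg (by omega), if_pos rfl]
    cases d h
    · exact .tail (.single (ls_dec _ 3 4 3 0 (by decide))) (ls_dec _ 4 13 2 3 (by decide))
    · exact .tail (.single (ls_dec _ 18 19 5 0 (by decide))) (ls_dec _ 19 28 4 5 (by decide))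
  have e1 : St h false d (h + 1) = if d (h + 1) then 15 else 0 := by simp [St]
  refine (lift_loc (by omega) _ a).tail ⟨(⟨h, by omega⟩, cx (d h)), (⟨h + 1, hn⟩, ca (d h)),
    Or.inr ⟨rfl, _, rfl, rfl⟩, Or.inl ?_, ?_⟩
  · simp only [conf, Function.update_self]
    rw [Function.update_of_ne (by omega), e1]
    cases d h <;> cases d (h + 1) <;> exact ⟨rfl, fun h => by cases h⟩
  · rw [conf_cross _ (by simp) _ _ (s := St (h + 1) (d h) d h) (s' := St (h + 1) (d h) d (h + 1))]
    · congr 1
      funext j
      simp only [Function.update_apply]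
      split_ifs with c1 c2
      · rw [c1]
      · rw [c2]
      · unfold St
        split_ifs <;> first | rfl | omega
    all_goals
      simp only [Function.update_self, Function.update_of_ne (show h + 1 ≠ h by omega), e1]
      try simp only [St, lt_irrefl, if_false, if_true, Nat.lt_add_one]
      cases d h <;> cases d (h + 1) <;> decide

theorem upA (d : ℕ → Bool) (h : ℕ) : h < n → (∀ k < h, d k = false) →
    ReflTransGen (TL (XX n) Fr) (conf n (St 0 false d)) (conf n (St h false d)) := by
  induction h with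
  | zero => exact fun _ _ => .refl
  | succ h ih =>
    intro hn hd
    have := up hn d
    rw [hd h (by omega)] at this
    exact (ih (by omega) fun k hk => hd k (by omega)).trans this

theorem upB (d : ℕ → Bool) {h : ℕ} (hn : h < n) (h2 : ∀ i, i + 2 ≤ h → d i = false)
    (h3 : ∀ i, i + 1 = h → d i = true) :
    ReflTransGen (TL (XX n) Fr) (conf n (St 0 false d)) (conf n (St h true d)) := by
  rcases h with _ | h
  · have a : ReflTransGen (ls ((0 : ℕ) = 0)) (St 0 false d 0) (St 0 true d 0) := by
      unfold St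
      cases d 0 <;> exact .single ⟨0, 1, by decide⟩
    convert lift_loc hn _ a using 2
    funext j
    rw [Function.update_apply]
    split_ifs with c
    · rw [c]
    · simp [St, c]
  · have := up hn d
    rw [h3 h rfl] at this
    exact (upA d h (by omega) fun k hk => h2 k (by omega)).trans this

theorem T_lift (c : Fin n × Fin 8 → Fin 4 × ℕ) (d d' : ℕ → Bool) (hG : Good n c d)
    (hs : Gr n d d') : ∃ c', Good n c' d' ∧ ReflTransGen (TL (XX n) Fr) c c' := by
  obtain ⟨rfl, h0⟩ := hG
  obtain ⟨h, hn, rfl, h2, h3⟩ := hs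
  refine ⟨_, ⟨rfl, fun k hk => by rw [Function.update_of_ne (by omega), h0 k hk]⟩,
    ((upB d hn h2 h3).trans ?_).trans (rtg_symm (fun _ _ => TL.symm) (upB _ hn
      (fun i hi => by rw [Function.update_of_ne (by omega), h2 i hi])
      (fun i hi => by rw [Function.update_of_ne (by omega), h3 i hi])))⟩
  have a : ReflTransGen (ls (h = 0)) (St h true d h) (if d h then 6 else 21) := by
    unfold St
    rw [if_neg (by omega), if_pos rfl]
    cases d h
    · exact .tail (.tail (.tail (.tail (.single (ls_dec _ 6 11 2 6 (by decide)))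
        (ls_dec _ 11 12 1 7 (by decide))) (ls_dec _ 12 27 6 7 (by decide)))
        (ls_dec _ 27 26 1 6 (by decide))) (ls_dec _ 26 21 4 7 (by decide))
    · exact .tail (.tail (.tail (.tail (.single (ls_dec _ 21 26 4 7 (by decide)))
        (ls_dec _ 26 27 1 6 (by decide))) (ls_dec _ 27 12 6 7 (by decide)))
        (ls_dec _ 12 11 1 7 (by decide))) (ls_dec _ 11 6 2 6 (by decide))
  convert lift_loc hn _ a using 2
  funext j
  rw [Function.update_apply]
  split_ifs with c c'
  · simp [St, c, c']
  · simp [St, c, c']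
  · simp [St, c]

theorem main (m : ℕ) : ∃ (Tr Y : SimpleGraph (Fin (8 * (m + 1))))
    (σ τ : Equiv.Perm (Fin (8 * (m + 1)))), Tr.IsTree ∧ (FS Tr Y).Reachable σ τ ∧
      2 ^ (m + 1) - 1 ≤ (FS Tr Y).dist σ τ := by
  obtain ⟨c1, -, hc⟩ := (gr_far m).sim (RL := TL (XX (m + 1)) Fr) (Rep (m + 1)) (Good (m + 1))
    (conf (m + 1) (St 0 false fun _ => false)) ⟨rfl, fun _ _ => rfl⟩ (good_rep (by omega))
    (fun c d d' h h' => rep_uniq c d d' (good_rep (by omega) _ _ h) h') T_sim T_lift
  refine tree_hard _ _ hc ?_ (Fintype.equivFinOfCardEq (by simp [mul_comm])).symm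
  have e : ∀ p : Fin (m + 1) × Fin 8, conf (m + 1) (St 0 false fun _ => false) p
      = ty p.1 (if p = (0, 0) then 0 else cont 0 p.2) := by
    rintro ⟨k, x⟩
    by_cases hk : k = 0
    · subst hk
      have : ∀ x : Fin 8, cont 3 x = if x = 0 then 0 else cont 0 x := by decide
      simp only [Prod.mk.injEq, true_and, ← this]
      rfl
    · have : (k : ℕ) ≠ 0 := fun h => hk (Fin.ext h)
      simp [conf, St, this, hk]
  simp only [e]
  have key : ∀ p q : Fin (m + 1) × Fin 8, Fr (ty p.1 (if p = (0, 0) then 0 else cont 0 p.2))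
      (ty q.1 (if q = (0, 0) then 0 else cont 0 q.2)) ↔
      q ≠ (0, 0) ∧ p = if cont 0 q.2 = 3 then (q.1, 2) else (0, 0) := by
    rintro ⟨k, x⟩ ⟨k', x'⟩
    have F2 : ∀ x x', lf (cont 0 x) (cont 0 x') = true ↔ x = 2 ∧ cont 0 x' = 3 := by decide
    have F3 : ∀ x', lf 0 (cont 0 x') = true ↔ cont 0 x' ≠ 3 := by decide
    have F4 : ∀ t, lf t 0 = false := by decide
    by_cases h2 : (k', x') = (0, 0)
    · simp [h2, Fr, ty, F4]
    rw [if_neg h2, and_iff_right h2]
    by_cases h1 : (k, x) = (0, 0)
    · rw [if_pos h1, h1]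
      simp only [Fr, ty, F3]
      split_ifs with c <;> simp_all
    · rw [if_neg h1]
      simp only [Fr, ty, F2]
      constructor
      · rintro ⟨⟨rfl, a⟩, b⟩
        rw [if_pos a]
        have := b rfl
        rw [a, if_neg (by decide), if_neg (by decide)] at this
        rw [Fin.ext this]
      · intro a
        by_cases c : cont 0 x' = 3
        · rw [if_pos c] at a
          obtain ⟨rfl, rfl⟩ := Prod.mk.inj a
          exact ⟨⟨rfl, c⟩, fun _ => by rw [c, if_neg (by decide), if_neg (by decide)]⟩
        · rw [if_neg c] at a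
          exact (h1 a).elim
  have F5 : ∀ x : Fin 8, 0 < (cont 0 x : ℕ) := by decide
  refine tree_of_par _ (0, 0) (fun q => if cont 0 q.2 = 3 then (q.1, 2) else (0, 0))
    (fun q => if q = (0, 0) then 0 else (cont 0 q.2 : ℕ)) (fun v hv => ⟨?_, ?_⟩) fun v w h => ?_
  · refine (SimpleGraph.fromRel_adj _ _ _).2 ⟨?_, Or.inr ((key _ _).2 ⟨hv, rfl⟩)⟩
    split_ifs with c
    · intro h
      rw [h] at c
      exact absurd c (by decide : cont 0 2 ≠ 3)
    · exact hv
  · simp only [if_neg hv]
    by_cases c : cont 0 v.2 = 3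
    · rw [if_pos c, if_neg (by simp), c]
      exact (by decide : (cont 0 2 : ℕ) < (3 : Fin 4))
    · rw [if_neg c, if_pos rfl]
      exact F5 _
  · exact (((SimpleGraph.fromRel_adj _ _ _).1 h).2.imp (key _ _).1 (key _ _).1).symm

end Pool.Agent.H.MP_5b8c2d_co
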